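import Mathlib
import Pool.Agent.L7h39.TV.Stm2
import Pool.Agent.Y648.CX.T_DUAL
import Pool.Agent.Y648.CX.T_MX

set_option autoImplicit false

/-! The vectors orthogonal to the left kernel: the maximum of a coordinate near one of few lines. -/

namespace Pool.Agent.L7h32.TV.Brd

open Matrix Pool.Agent.Y648.CS.V Pool.Agent.L7h39.TV

variable {K n : ℕ}

theorem mem_lker {m n : ℕ} {A : Matrix (Fin m) (Fin n) ℝ} {x : Fin m → ℝ} :
    x ∈ lker A ↔ ∀ j, ∑ i, x i * A i j = 0 := by
  unfold lker
  rw [LinearMap.mem_ker]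
  constructor
  · intro h j
    exact congrFun h j
  · intro h
    funext j
    exact h j

/-- The doubled matrix. -/
def A2 (A : Matrix (Fin K) (Fin n) ℝ) (e : Fin K) : Matrix (Fin (K + K + 1)) (Fin n) ℝ :=
  Fin.snoc (Fin.append A (-A)) (-(A e))

/-- The doubled costs. -/
def c2 (c : Fin K → ℝ) : Fin (K + K + 1) → ℝ := Fin.snoc (Fin.append c 0) 0

theorem sum2 (x c : Fin (K + K + 1) → ℝ) :
    ∑ i, x i * c i = ∑ i : Fin K, x (Fin.castSucc (Fin.castAdd K i)) *
      c (Fin.castSucc (Fin.castAdd K i)) +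
      ∑ i : Fin K, x (Fin.castSucc (Fin.natAdd K i)) * c (Fin.castSucc (Fin.natAdd K i)) +
      x (Fin.last _) * c (Fin.last _) := by
  rw [Fin.sum_univ_castSucc, Fin.sum_univ_add]

theorem two2 {A : Matrix (Fin K) (Fin n) ℝ} (h : Two A) (e : Fin K) : Two (A2 A e) := by
  intro i
  refine Fin.lastCases ?_ (fun i => ?_) i
  · have h1 : ∀ j, A2 A e (Fin.last _) j = -(A e j) := by
      intro j
      simp [A2]
    simp only [h1, ne_eq, neg_eq_zero]
    exact h e
  · refine Fin.addCases (fun i => ?_) (fun i => ?_) i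
    · have h1 : ∀ j, A2 A e (Fin.castSucc (Fin.castAdd K i)) j = A i j := by
        intro j
        simp [A2]
      simp only [h1]
      exact h i
    · have h1 : ∀ j, A2 A e (Fin.castSucc (Fin.natAdd K i)) j = -(A i j) := by
        intro j
        simp only [A2, Fin.snoc_castSucc, Fin.append_right, Matrix.neg_apply]
      simp only [h1, ne_eq, neg_eq_zero]
      exact h i

/-- The left kernel of the doubled matrix. -/
theorem mem2 {A : Matrix (Fin K) (Fin n) ℝ} {e : Fin K} {x : Fin (K + K + 1) → ℝ}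
    (hx : x (Fin.last _) = 1) :
    x ∈ lker (A2 A e) ↔ (fun i : Fin K => x (Fin.castSucc (Fin.castAdd K i)) -
      x (Fin.castSucc (Fin.natAdd K i)) - (Pi.single e 1 : Fin K → ℝ) i) ∈ lker A := by
  rw [mem_lker, mem_lker]
  refine forall_congr' fun j => ?_
  have h1 : ∑ i, x i * A2 A e i j = ∑ i : Fin K, (x (Fin.castSucc (Fin.castAdd K i)) -
      x (Fin.castSucc (Fin.natAdd K i)) - (Pi.single e 1 : Fin K → ℝ) i) * A i j := by
    rw [sum2 x (fun i => A2 A e i j), hx]
    have e1 : ∀ i : Fin K, A2 A e (Fin.castSucc (Fin.castAdd K i)) j = A i j := by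
      intro i; simp [A2]
    have e2 : ∀ i : Fin K, A2 A e (Fin.castSucc (Fin.natAdd K i)) j = -(A i j) := by
      intro i; simp only [A2, Fin.snoc_castSucc, Fin.append_right, Matrix.neg_apply]
    have e3 : A2 A e (Fin.last _) j = -(A e j) := by simp [A2]
    have e4 : A e j = ∑ i : Fin K, (Pi.single e 1 : Fin K → ℝ) i * A i j := by
      rw [Finset.sum_eq_single e]
      · simp
      · intro i _ hi
        rw [Pi.single_eq_of_ne hi, zero_mul]
      · intro h
        exact absurd (Finset.mem_univ _) h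
    simp only [e1, e2, e3]
    rw [e4, one_mul, ← Finset.sum_add_distrib, ← Finset.sum_neg_distrib,
      ← Finset.sum_add_distrib]
    refine Finset.sum_congr rfl fun i _ => ?_
    ring
  rw [h1]

/-- The capacities on the interval. -/
noncomputable def al (s : Fin K → ℝ) (a : ℝ) (i : Fin K) : ℝ := if s i ≤ 2 ^ a then 1 else 0

/-- The capacities on the interval. -/
noncomputable def be (s : Fin K → ℝ) (a : ℝ) (i : Fin K) : ℝ := if s i ≤ 2 ^ a then 0 else 1 / s i

theorem cap_eq {s : Fin K → ℝ} {a b y : ℝ} (hL : Lin s a b) (h1 : a ≤ y) (h2 : y ≤ b)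
    (i : Fin K) : cap s (2 ^ y) i = al s a i + 2 ^ y * be s a i := by
  unfold cap al be
  have h3 : (2 : ℝ) ^ a ≤ 2 ^ y := Real.rpow_le_rpow_of_exponent_le (by norm_num) h1
  have h4 : (2 : ℝ) ^ y ≤ 2 ^ b := Real.rpow_le_rpow_of_exponent_le (by norm_num) h2
  have h5 : (0 : ℝ) < 2 ^ y := by positivity
  by_cases h : s i ≤ 2 ^ a
  · rw [if_pos h, if_pos h, if_pos (h.trans h3)]
    ring
  · rw [if_neg h, if_neg h]
    have h6 : (2 : ℝ) ^ b ≤ s i := (hL i).resolve_left h
    by_cases h7 : s i ≤ 2 ^ y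
    · rw [if_pos h7]
      have h8 : s i = 2 ^ y := le_antisymm h7 (h4.trans h6)
      rw [h8]
      field_simp
      ring
    · rw [if_neg h7]
      ring

theorem cap_pos {s : Fin K → ℝ} {t : ℝ} (ht : 0 < t) (i : Fin K) : 0 < cap s t i := by
  unfold cap
  split_ifs with h
  · exact one_pos
  · push Not at h
    exact div_pos ht (ht.trans h)

/-- The columns are orthogonal to the left kernel. -/
theorem col_mem (A : Matrix (Fin K) (Fin n) ℝ) (j : Fin n) : (fun i => A i j) ∈ ann (lker A) := by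
  intro u hu
  have := mem_lker.1 hu j
  rw [dotProduct]
  rw [← this]
  refine Finset.sum_congr rfl fun i _ => ?_
  ring

theorem weak {A : Matrix (Fin K) (Fin n) ℝ} {s : Fin K → ℝ} (f g : Fin K → ℝ) {t : ℝ}
    (ht : 0 < t) (hg : (fun i => g i - f i) ∈ lker A) :
    mx (ann (lker A)) s f t ≤ ∑ i, cap s t i * max (g i) 0 := by
  obtain ⟨x, hx, hxe⟩ := Mx.attained (ann (lker A)) s f ht
  rw [← hxe]
  have h1 := hx.1 _ hg
  have h2 : f ⬝ᵥ x = ∑ i, g i * x i := by
    have e1 : x ⬝ᵥ (fun i => g i - f i) = ∑ i, g i * x i - f ⬝ᵥ x := by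
      rw [dotProduct, dotProduct, ← Finset.sum_sub_distrib]
      refine Finset.sum_congr rfl fun i _ => ?_
      ring
    linarith
  rw [h2]
  refine Finset.sum_le_sum fun i _ => ?_
  have h4 := hx.2 i
  calc g i * x i ≤ max (g i) 0 * x i := mul_le_mul_of_nonneg_right (le_max_left _ _) h4.1
    _ ≤ max (g i) 0 * cap s t i := mul_le_mul_of_nonneg_left h4.2 (le_max_right _ _)
    _ = _ := mul_comm _ _

theorem strong {A : Matrix (Fin K) (Fin n) ℝ} {s : Fin K → ℝ} (f : Fin K → ℝ) {t : ℝ}
    (ht : 0 < t) : ∃ g : Fin K → ℝ, (fun i => g i - f i) ∈ lker A ∧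
      ∑ i, cap s t i * max (g i) 0 ≤ mx (ann (lker A)) s f t := by
  obtain ⟨x, hx, hx2, g, hg, hfx⟩ := t_DUAL K (ann (lker A)) (cap s t) f
    (fun i => cap_pos ht i)
  refine ⟨g, ?_, ?_⟩
  · rw [mem_lker]
    intro j
    have h1 := hg _ (col_mem A j)
    simp only [dotProduct] at h1
    have e1 : ∑ i, (g i - f i) * A i j = ∑ i, g i * A i j - ∑ i, f i * A i j := by
      rw [← Finset.sum_sub_distrib]
      refine Finset.sum_congr rfl fun i _ => ?_
      ring
    rw [e1, h1, sub_self]
  · rw [← hfx]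
    exact Mx.le_mx _ s f t ⟨hx, hx2⟩

/-- The cost of a nonnegative vector. -/
theorem cost {s : Fin K → ℝ} {a b y : ℝ} (hL : Lin s a b) (h1 : a ≤ y) (h2 : y ≤ b)
    (x : Fin (K + K + 1) → ℝ) :
    ∑ i, (c2 (al s a) i + 2 ^ y * c2 (be s a) i) * x i =
      ∑ i, cap s (2 ^ y) i * x (Fin.castSucc (Fin.castAdd K i)) := by
  have e0 : ∑ i, (c2 (al s a) i + 2 ^ y * c2 (be s a) i) * x i =
      ∑ i, x i * (c2 (al s a) i + 2 ^ y * c2 (be s a) i) :=
    Finset.sum_congr rfl fun i _ => mul_comm _ _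
  rw [e0, sum2 x (fun i => c2 (al s a) i + 2 ^ y * c2 (be s a) i)]
  simp only [c2, Fin.snoc_castSucc, Fin.snoc_last, Fin.append_left, Fin.append_right,
    Pi.zero_apply, mul_zero, add_zero, Finset.sum_const_zero]
  refine Finset.sum_congr rfl fun i _ => ?_
  rw [cap_eq hL h1 h2]
  ring

theorem log_near {M X : ℝ} {q : ℕ} (hX : 0 < X) (h1 : M ≤ 2 ^ q * X) (h2 : X ≤ 2 ^ (q + 1) * M) :
    0 < M ∧ |Real.logb 2 X - Real.logb 2 M| ≤ q + 1 := by
  have hM : 0 < M := by
    by_contra h
    push Not at h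
    have : (2 : ℝ) ^ (q + 1) * M ≤ 0 := mul_nonpos_of_nonneg_of_nonpos (by positivity) h
    linarith
  refine ⟨hM, ?_⟩
  have e1 : Real.logb 2 M ≤ q + Real.logb 2 X := by
    have := Real.logb_le_logb_of_le (b := 2) (by norm_num) hM h1
    rw [Real.logb_mul (by positivity) hX.ne', Real.logb_pow, Real.logb_self_eq_one (by norm_num),
      mul_one] at this
    exact this
  have e2 : Real.logb 2 X ≤ (q + 1) + Real.logb 2 M := by
    have := Real.logb_le_logb_of_le (b := 2) (by norm_num) hX h2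
    rw [Real.logb_mul (by positivity) hM.ne', Real.logb_pow, Real.logb_self_eq_one (by norm_num),
      mul_one] at this
    push_cast at this
    exact this
  rw [abs_le]
  constructor <;> linarith

end Pool.Agent.L7h32.TV.Brd

namespace Pool.Agent.L7h32.TV

open Matrix Pool.Agent.Y648.CS.V Pool.Agent.L7h39.TV Brd

theorem brd (h : S_LCP) : S_BRD := by
  obtain ⟨Q, hQ⟩ := h
  refine ⟨2 * Q.comp (2 * Polynomial.X + 1) + 1, ?_⟩
  intro K n A s e a b hA hs hab hL hpos
  have hev : (2 * Q.comp (2 * Polynomial.X + 1) + 1 : Polynomial ℕ).eval K =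
      2 * Q.eval (K + K + 1) + 1 := by
    simp only [Polynomial.eval_add, Polynomial.eval_mul, Polynomial.eval_comp,
      Polynomial.eval_X, Polynomial.eval_one, Polynomial.eval_ofNat]
    congr 3
    ring
  rw [hev]
  set q := Q.eval (K + K + 1) with hq
  have hal : ∀ i, 0 ≤ c2 (al s a) i := by
    intro i
    refine Fin.lastCases ?_ (fun i => ?_) i
    · simp [c2]
    · refine Fin.addCases (fun i => ?_) (fun i => ?_) i
      · simp only [c2, Fin.snoc_castSucc, Fin.append_left, al]
        split_ifs <;> norm_num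
      · simp only [c2, Fin.snoc_castSucc, Fin.append_right, Pi.zero_apply, le_refl]
  have hbe : ∀ i, 0 ≤ c2 (be s a) i := by
    intro i
    refine Fin.lastCases ?_ (fun i => ?_) i
    · simp [c2]
    · refine Fin.addCases (fun i => ?_) (fun i => ?_) i
      · simp only [c2, Fin.snoc_castSucc, Fin.append_left, be]
        split_ifs
        · exact le_rfl
        · exact one_div_nonneg.2 (hs i)
      · simp only [c2, Fin.snoc_castSucc, Fin.append_right, Pi.zero_apply, le_refl]
  obtain ⟨D, hD1, hD2, hD3, hD4⟩ := hQ (K + K + 1) n (A2 A e) (c2 (al s a)) (c2 (be s a))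
    (Fin.last _) (two2 hA e) hal hbe
  rw [← hq] at hD1 hD3 hD4
  classical
  -- the lines
  let T := {p // p ∈ D} × Bool
  let φ : T ≃ Fin (Fintype.card T) := Fintype.equivFin T
  refine ⟨Fintype.card T, fun i => Real.logb 2 (if (φ.symm i).2 then (φ.symm i).1.1.2 else
    (φ.symm i).1.1.1), fun i => (φ.symm i).2, ?_, ?_⟩
  · have : Fintype.card T = D.card * 2 := by
      simp [T, Fintype.card_prod]
    rw [this]
    omega
  · intro y h1 h2
    have ht : (0 : ℝ) < 2 ^ y := by positivity
    have hta : (2 : ℝ) ^ a ≤ 2 ^ y := Real.rpow_le_rpow_of_exponent_le (by norm_num) h1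
    have hmono := (t_MX K (ann (lker A)) s (Pi.single e 1) hs (2 ^ a) (by positivity)).2.2.2 _ hta
    have hX : 0 < mx (ann (lker A)) s (Pi.single e 1) (2 ^ y) := hpos.trans_le hmono.1
    -- the optimal dual vector
    obtain ⟨g, hg1, hg2⟩ := strong (A := A) (s := s) (Pi.single e 1) ht
    let x : Fin (K + K + 1) → ℝ :=
      Fin.snoc (Fin.append (fun i => max (g i) 0) (fun i => max (-(g i)) 0)) 1
    have hxl : x (Fin.last _) = 1 := by simp [x]
    have hx1 : ∀ i : Fin K, x (Fin.castSucc (Fin.castAdd K i)) = max (g i) 0 := by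
      intro i; simp [x]
    have hx2 : ∀ i : Fin K, x (Fin.castSucc (Fin.natAdd K i)) = max (-(g i)) 0 := by
      intro i; simp only [x, Fin.snoc_castSucc, Fin.append_right]
    have hxm : x ∈ lker (A2 A e) := by
      rw [mem2 hxl]
      have : (fun i : Fin K => x (Fin.castSucc (Fin.castAdd K i)) -
          x (Fin.castSucc (Fin.natAdd K i)) - (Pi.single e 1 : Fin K → ℝ) i) =
          fun i => g i - (Pi.single e 1 : Fin K → ℝ) i := by
        funext i
        rw [hx1, hx2]
        rcases le_total (g i) 0 with h | h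
        · rw [max_eq_right h, max_eq_left (by linarith)]
          ring
        · rw [max_eq_left h, max_eq_right (by linarith)]
          ring
      rw [this]
      exact hg1
    have hx0 : ∀ i, 0 ≤ x i := by
      intro i
      refine Fin.lastCases ?_ (fun i => ?_) i
      · rw [hxl]; norm_num
      · refine Fin.addCases (fun i => ?_) (fun i => ?_) i
        · rw [hx1]; exact le_max_right _ _
        · rw [hx2]; exact le_max_right _ _
    obtain ⟨p, hp, hp1⟩ := hD3 (2 ^ y) ht x hxm hx0 hxl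
    rw [cost hL h1 h2 x] at hp1
    simp only [hx1] at hp1
    have hp2 : max p.1 (2 ^ y * p.2) ≤ 2 ^ q * mx (ann (lker A)) s (Pi.single e 1) (2 ^ y) :=
      hp1.trans (mul_le_mul_of_nonneg_left hg2 (by positivity))
    -- the upper bound
    obtain ⟨x', hx'1, hx'2, hx'3, hx'4, hx'5⟩ := hD4 p hp
    have hp3 : mx (ann (lker A)) s (Pi.single e 1) (2 ^ y) ≤
        2 ^ (q + 1) * max p.1 (2 ^ y * p.2) := by
      have hw := weak (A := A) (s := s) (Pi.single e 1)
        (fun i => x' (Fin.castSucc (Fin.castAdd K i)) - x' (Fin.castSucc (Fin.natAdd K i))) ht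
        ((mem2 hx'3).1 hx'1)
      have e1 : ∑ i, cap s (2 ^ y) i * max (x' (Fin.castSucc (Fin.castAdd K i)) -
          x' (Fin.castSucc (Fin.natAdd K i))) 0 ≤
          ∑ i, cap s (2 ^ y) i * x' (Fin.castSucc (Fin.castAdd K i)) := by
        refine Finset.sum_le_sum fun i _ => ?_
        refine mul_le_mul_of_nonneg_left (max_le ?_ (hx'2 _)) (cap_pos ht i).le
        have := hx'2 (Fin.castSucc (Fin.natAdd K i))
        linarith
      rw [← cost hL h1 h2 x'] at e1
      have e2 : ∑ i, (c2 (al s a) i + 2 ^ y * c2 (be s a) i) * x' i =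
          ∑ i, c2 (al s a) i * x' i + 2 ^ y * ∑ i, c2 (be s a) i * x' i := by
        rw [Finset.mul_sum, ← Finset.sum_add_distrib]
        refine Finset.sum_congr rfl fun i _ => ?_
        ring
      have e3 : 2 ^ y * ∑ i, c2 (be s a) i * x' i ≤ 2 ^ y * (2 ^ q * p.2) :=
        mul_le_mul_of_nonneg_left hx'5 ht.le
      have e4 : 2 ^ q * p.1 ≤ 2 ^ q * max p.1 (2 ^ y * p.2) :=
        mul_le_mul_of_nonneg_left (le_max_left _ _) (by positivity)
      have e5 : 2 ^ q * (2 ^ y * p.2) ≤ 2 ^ q * max p.1 (2 ^ y * p.2) :=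
        mul_le_mul_of_nonneg_left (le_max_right _ _) (by positivity)
      have e6 : (2 : ℝ) ^ (q + 1) * max p.1 (2 ^ y * p.2) =
          2 ^ q * max p.1 (2 ^ y * p.2) + 2 ^ q * max p.1 (2 ^ y * p.2) := by
        rw [pow_succ]; ring
      have e7 : (2 : ℝ) ^ y * (2 ^ q * p.2) = 2 ^ q * (2 ^ y * p.2) := by ring
      rw [e6]
      linarith
    obtain ⟨hM, hlog⟩ := log_near hX hp2 hp3
    have hfin : ∀ (B : Bool) (c : ℝ), c = (if B then p.2 else p.1) →
        Real.logb 2 (max p.1 (2 ^ y * p.2)) = Real.logb 2 c + (if B then y else 0) →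
        ∃ i : Fin (Fintype.card T), |lmx (ann (lker A)) s (Pi.single e 1) y -
          (Real.logb 2 (if (φ.symm i).2 then (φ.symm i).1.1.2 else (φ.symm i).1.1.1) +
            if (φ.symm i).2 then y else 0)| ≤ ((2 * q + 1 : ℕ) : ℝ) := by
      intro B c hc hc2
      refine ⟨φ (⟨p, hp⟩, B), ?_⟩
      rw [Equiv.symm_apply_apply]
      show |lmx (ann (lker A)) s (Pi.single e 1) y - (Real.logb 2 (if B then p.2 else p.1) +
            if B then y else 0)| ≤ _
      rw [← hc, ← hc2]
      unfold lmx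
      refine hlog.trans ?_
      push_cast
      have : (0 : ℝ) ≤ q := Nat.cast_nonneg _
      linarith
    rcases le_total p.1 (2 ^ y * p.2) with h | h
    · refine hfin true p.2 rfl ?_
      rw [max_eq_right h] at hM ⊢
      have h2 : 0 < p.2 := pos_of_mul_pos_right hM ht.le
      rw [Real.logb_mul ht.ne' h2.ne', Real.logb_rpow (by norm_num) (by norm_num)]
      simp only [if_true]
      ring
    · refine hfin false p.1 rfl ?_
      rw [max_eq_left h]
      simp

end Pool.Agent.L7h32.TV
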