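import Mathlib
import Pool.Agent.L7h39.TV.Stm

set_option autoImplicit false

/-! Coarse gains: simultaneous approximation of the logarithms of the gains. -/

namespace Pool.Agent.L7h32.TV

open Pool.Agent.L7h39.TV

theorem dirichlet (E : Type) [Fintype E] (H : ℕ) (hH : 1 ≤ H) (θ : E → ℝ) :
    ∃ (Q : ℕ) (P : E → ℤ), 1 ≤ Q ∧ Q ≤ H ^ Fintype.card E ∧
      ∀ f, |(Q : ℝ) * θ f - P f| ≤ 1 / H := by
  classical
  have hHr : (0 : ℝ) < H := by exact_mod_cast hH
  let F : ℕ → (E → Fin H) := fun j f => ⟨⌊(H : ℝ) * Int.fract ((j : ℝ) * θ f)⌋₊, by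
    have h1 : (H : ℝ) * Int.fract ((j : ℝ) * θ f) < H := by
      have := Int.fract_lt_one ((j : ℝ) * θ f)
      nlinarith
    have h2 : 0 ≤ (H : ℝ) * Int.fract ((j : ℝ) * θ f) := mul_nonneg hHr.le (Int.fract_nonneg _)
    exact (Nat.floor_lt h2).2 h1⟩
  have hcard : (Finset.univ : Finset (E → Fin H)).card < (Finset.range (H ^ Fintype.card E + 1)).card := by
    rw [Finset.card_univ, Fintype.card_fun, Fintype.card_fin, Finset.card_range]
    exact Nat.lt_succ_self _
  obtain ⟨i, hi, j, hj, hij, hF⟩ := Finset.exists_ne_map_eq_of_card_lt_of_maps_to hcard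
    (f := F) (fun _ _ => Finset.mem_univ _)
  rw [Finset.mem_range] at hi hj
  have key : ∀ i j : ℕ, i < j → F i = F j → ∀ f,
      |((j - i : ℕ) : ℝ) * θ f - (⌊(j : ℝ) * θ f⌋ - ⌊(i : ℝ) * θ f⌋ : ℤ)| ≤ 1 / H := by
    intro i j hij hF f
    have h1 : ⌊(H : ℝ) * Int.fract ((i : ℝ) * θ f)⌋₊ = ⌊(H : ℝ) * Int.fract ((j : ℝ) * θ f)⌋₊ := by
      have := congrFun hF f
      exact congrArg Fin.val this
    have a1 := Nat.floor_le (mul_nonneg hHr.le (Int.fract_nonneg ((i : ℝ) * θ f)))
    have a2 := Nat.lt_floor_add_one ((H : ℝ) * Int.fract ((i : ℝ) * θ f))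
    have b1 := Nat.floor_le (mul_nonneg hHr.le (Int.fract_nonneg ((j : ℝ) * θ f)))
    have b2 := Nat.lt_floor_add_one ((H : ℝ) * Int.fract ((j : ℝ) * θ f))
    rw [h1] at a1 a2
    have c1 := Int.floor_add_fract ((i : ℝ) * θ f)
    have c2 := Int.floor_add_fract ((j : ℝ) * θ f)
    have e1 : ((j - i : ℕ) : ℝ) * θ f - (⌊(j : ℝ) * θ f⌋ - ⌊(i : ℝ) * θ f⌋ : ℤ) =
        Int.fract ((j : ℝ) * θ f) - Int.fract ((i : ℝ) * θ f) := by
      rw [Nat.cast_sub hij.le]
      push_cast
      linarith
    rw [e1, le_div_iff₀ hHr]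
    have e2 : |Int.fract ((j : ℝ) * θ f) - Int.fract ((i : ℝ) * θ f)| * H =
        |(H : ℝ) * Int.fract ((j : ℝ) * θ f) - (H : ℝ) * Int.fract ((i : ℝ) * θ f)| := by
      rw [← mul_sub, abs_mul, abs_of_pos hHr, mul_comm]
    rw [e2, abs_le]
    constructor <;> linarith
  rcases Nat.lt_or_gt_of_ne hij with h | h
  · exact ⟨j - i, fun f => ⌊(j : ℝ) * θ f⌋ - ⌊(i : ℝ) * θ f⌋, by omega, by omega, key i j h hF⟩
  · exact ⟨i - j, fun f => ⌊(i : ℝ) * θ f⌋ - ⌊(j : ℝ) * θ f⌋, by omega, by omega, key j i h hF.symm⟩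

theorem wt_rpow {E : Type} (u : E → ℝ) (l : List E) :
    wt (fun f => (2 : ℝ) ^ u f) l = (2 : ℝ) ^ (l.map u).sum := by
  unfold wt
  induction l with
  | nil => simp
  | cons f l ih =>
    rw [List.map_cons, List.prod_cons, ih, List.map_cons, List.sum_cons, Real.rpow_add (by norm_num)]

theorem sum_diff {E : Type} (u v : E → ℝ) (ε : ℝ) (h : ∀ f, |u f - v f| ≤ ε) (l : List E) :
    |(l.map u).sum - (l.map v).sum| ≤ l.length * ε := by
  induction l with
  | nil => simp
  | cons f l ih =>
    rw [List.map_cons, List.map_cons, List.sum_cons, List.sum_cons, List.length_cons]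
    push_cast
    have h1 := h f
    have e : u f + (l.map u).sum - (v f + (l.map v).sum) =
        (u f - v f) + ((l.map u).sum - (l.map v).sum) := by ring
    rw [e]
    refine (abs_add_le _ _).trans ?_
    linarith

theorem sum_int {E : Type} (P : E → ℤ) (Q : ℝ) (l : List E) :
    (l.map (fun f => (P f : ℝ) / Q)).sum = ((l.map P).sum : ℤ) / Q := by
  induction l with
  | nil => simp
  | cons f l ih =>
    rw [List.map_cons, List.sum_cons, ih, List.map_cons, List.sum_cons]
    push_cast
    ring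

theorem gap : S_GAP := by
  intro E _ M g hg
  obtain ⟨Q, P, hQ1, hQ2, hP⟩ := dirichlet E (8 * M + 8) (by omega) (fun f => Real.logb 2 (g f))
  have hQ : (1 : ℝ) ≤ Q := by exact_mod_cast hQ1
  have hM : (0 : ℝ) < 8 * M + 8 := by positivity
  refine ⟨fun f => (2 : ℝ) ^ ((P f : ℝ) / Q), 1 / Q, ⟨hg, fun f => by positivity, by positivity, ?_, ?_⟩, ?_⟩
  · rw [div_le_one (by linarith)]
    exact hQ
  · intro l hl
    have hg' : wt g l = (2 : ℝ) ^ (l.map (fun f => Real.logb 2 (g f))).sum := by
      rw [← wt_rpow]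
      congr 1
      funext f
      rw [Real.rpow_logb (by norm_num) (by norm_num) (hg f)]
    have hk := wt_rpow (fun f => (P f : ℝ) / Q) l
    have hd := sum_diff (fun f => Real.logb 2 (g f)) (fun f => (P f : ℝ) / Q) (1 / (Q * (8 * M + 8))) (by
      intro f
      have h1 := hP f
      push_cast at h1
      have e : Real.logb 2 (g f) - (P f : ℝ) / Q = ((Q : ℝ) * Real.logb 2 (g f) - P f) / Q := by
        field_simp
      rw [e, abs_div, abs_of_pos (by linarith : (0 : ℝ) < Q), div_le_div_iff₀ (by linarith) (by positivity)]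
      have h2 : |(Q : ℝ) * Real.logb 2 (g f) - P f| * (8 * M + 8) ≤ 1 := by
        rwa [le_div_iff₀ hM] at h1
      nlinarith) l
    have hd2 : |(l.map (fun f => Real.logb 2 (g f))).sum - (l.map (fun f => (P f : ℝ) / Q)).sum| ≤
        1 / (Q : ℝ) / 8 := by
      refine hd.trans ?_
      have hl' : (l.length : ℝ) ≤ M := by exact_mod_cast hl
      rw [mul_one_div, div_div, div_le_div_iff₀ (by positivity) (by positivity)]
      nlinarith
    rw [abs_le] at hd2
    rw [hg', hk]
    refine ⟨?_, ?_, ?_⟩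
    · rw [← Real.rpow_add (by norm_num)]
      apply Real.rpow_le_rpow_of_exponent_le (by norm_num)
      linarith [hd2.2]
    · rw [← Real.rpow_add (by norm_num)]
      apply Real.rpow_le_rpow_of_exponent_le (by norm_num)
      linarith [hd2.1]
    · rw [sum_int]
      rcases lt_trichotomy ((l.map P).sum) 0 with h | h | h
      · right
        right
        apply Real.rpow_le_rpow_of_exponent_le (by norm_num)
        have h1 : (((l.map P).sum : ℤ) : ℝ) ≤ -1 := by
          have : (l.map P).sum ≤ -1 := by omega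
          exact_mod_cast this
        rw [← neg_div]
        exact div_le_div_of_nonneg_right h1 (by linarith)
      · left
        rw [h]
        simp
      · right
        left
        apply Real.rpow_le_rpow_of_exponent_le (by norm_num)
        have h1 : (1 : ℝ) ≤ (((l.map P).sum : ℤ) : ℝ) := by
          have : 1 ≤ (l.map P).sum := by omega
          exact_mod_cast this
        exact div_le_div_of_nonneg_right h1 (by linarith)
  · rw [div_mul_eq_mul_div, one_mul, le_div_iff₀ (by linarith), one_mul]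
    have : (Q : ℝ) ≤ ((8 * M + 8) ^ Fintype.card E : ℕ) := by exact_mod_cast hQ2
    push_cast at this
    exact this

end Pool.Agent.L7h32.TV
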