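import Mathlib
import Pool.Agent.L7h39.TV.Stm

set_option autoImplicit false

/-! Reduction of walks to short walks. -/

namespace Pool.Agent.L7h32.TV

open Pool.Agent.L7h39.TV

variable {E N : Type}

theorem wt_nil (k : E → ℝ) : wt k [] = 1 := by simp [wt]

theorem wt_cons (k : E → ℝ) (f : E) (l : List E) : wt k (f :: l) = k f * wt k l := by simp [wt]

theorem wt_append (k : E → ℝ) (l l' : List E) : wt k (l ++ l') = wt k l * wt k l' := by simp [wt]

theorem wt_pos {k : E → ℝ} (hk : ∀ f, 0 < k f) (l : List E) : 0 < wt k l := by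
  induction l with
  | nil => simp [wt]
  | cons f l ih =>
    rw [wt_cons]
    exact mul_pos (hk f) ih

theorem mxl_cons (k c : E → ℝ) (f : E) (l : List E) :
    mxl k c (f :: l) = max (c f) (k f * mxl k c l) := rfl

theorem mxl_nonneg {k c : E → ℝ} (hk : ∀ f, 0 < k f) (hc : ∀ f, 0 ≤ c f) (l : List E) :
    0 ≤ mxl k c l := by
  cases l with
  | nil => exact le_rfl
  | cons f l => exact (hc f).trans (le_max_left _ _)

theorem mxl_append {k c : E → ℝ} (hk : ∀ f, 0 < k f) (hc : ∀ f, 0 ≤ c f) (l l' : List E) :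
    mxl k c (l ++ l') = max (mxl k c l) (wt k l * mxl k c l') := by
  induction l with
  | nil =>
    rw [List.nil_append, wt_nil, one_mul]
    show _ = max 0 _
    rw [max_eq_right (mxl_nonneg hk hc l')]
  | cons f l ih =>
    rw [List.cons_append, mxl_cons, ih, mxl_cons, wt_cons, max_assoc, mul_max_of_nonneg _ _ (hk f).le,
      mul_assoc]

theorem mxl_left {k c : E → ℝ} (hk : ∀ f, 0 < k f) (hc : ∀ f, 0 ≤ c f) (l l' : List E) :
    mxl k c l ≤ mxl k c (l ++ l') := by
  rw [mxl_append hk hc]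
  exact le_max_left _ _

theorem mxl_right {k c : E → ℝ} (hk : ∀ f, 0 < k f) (hc : ∀ f, 0 ≤ c f) (l l' : List E) :
    wt k l * mxl k c l' ≤ mxl k c (l ++ l') := by
  rw [mxl_append hk hc]
  exact le_max_right _ _

theorem Wk.append {tl hd : E → Option N} {v w x : N} {l l' : List E} (h : Wk tl hd v l x)
    (h' : Wk tl hd x l' w) : Wk tl hd v (l ++ l') w := by
  induction h with
  | nil _ => exact h'
  | cons h1 h2 _ ih => exact Wk.cons h1 h2 (ih h')

theorem Wk.split {tl hd : E → Option N} {l l' : List E} : ∀ {v w : N}, Wk tl hd v (l ++ l') w →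
    ∃ x, Wk tl hd v l x ∧ Wk tl hd x l' w := by
  induction l with
  | nil =>
    intro v w h
    exact ⟨v, Wk.nil v, h⟩
  | cons f l ih =>
    intro v w h
    rw [List.cons_append] at h
    cases h with
    | cons h1 h2 h3 =>
      obtain ⟨x, h4, h5⟩ := ih h3
      exact ⟨x, Wk.cons h1 h2 h4, h5⟩

theorem Wk.tail_cons {tl hd : E → Option N} {v w : N} {f : E} {l : List E}
    (h : Wk tl hd v (f :: l) w) : tl f = some v := by
  cases h with
  | cons h1 _ _ => exact h1

/-- a list with a repeated entry has a first closed part -/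
theorem first_rep (l : List E) (h : ¬ l.Nodup) :
    ∃ (R : List E) (f : E) (m l2 : List E), l = R ++ ((f :: m) ++ (f :: l2)) ∧ (R ++ (f :: m)).Nodup := by
  classical
  induction l using List.reverseRecOn with
  | nil => exact absurd List.nodup_nil h
  | append_singleton t x ih =>
    by_cases ht : t.Nodup
    · have hx : x ∈ t := by
        by_contra hx
        apply h
        rw [List.nodup_append]
        refine ⟨ht, List.nodup_singleton x, ?_⟩
        intro a ha b hb
        rw [List.mem_singleton] at hb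
        subst hb
        intro hab
        exact hx (hab ▸ ha)
      obtain ⟨R, m, hR⟩ := List.append_of_mem hx
      refine ⟨R, x, m, [], ?_, ?_⟩
      · rw [hR]
        simp
      · rw [← hR]
        exact ht
    · obtain ⟨R, f, m, l2, h1, h2⟩ := ih ht
      refine ⟨R, f, m, l2 ++ [x], ?_, h2⟩
      rw [h1]
      simp

theorem nodup_len [Fintype E] {l : List E} (h : l.Nodup) : l.length ≤ Fintype.card E :=
  h.length_le_card

/-- a closed part of a walk -/
theorem closed_part {tl hd : E → Option N} {v w : N} {R m l2 : List E} {f : E}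
    (h : Wk tl hd v (R ++ ((f :: m) ++ (f :: l2))) w) :
    ∃ x, Wk tl hd v R x ∧ Wk tl hd x (f :: m) x ∧ Wk tl hd x (f :: l2) w := by
  obtain ⟨x, h1, h2⟩ := Wk.split h
  obtain ⟨y, h3, h4⟩ := Wk.split h2
  have e1 := Wk.tail_cons h3
  have e2 := Wk.tail_cons h4
  rw [e1] at e2
  have e3 : x = y := Option.some_injective _ e2
  subst e3
  exact ⟨x, h1, h3, h4⟩

/-- the ways to end -/
def Rest [Fintype E] (tl hd : E → Option N) (g k : E → ℝ) (M0 : ℕ) (a b : E → ℝ) (w : N)
    (r : ℝ × ℝ) : Prop :=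
  (∃ s : E, tl s = some w ∧ hd s = none ∧ r = (a s, b s)) ∨
  (∃ z : List E, Wk tl hd w z w ∧ z.length ≤ Fintype.card E ∧ wt k z < 1 ∧
    r = (mxl k a z, mxl k b z)) ∨
  (∃ z : List E, Wk tl hd w z w ∧ z.length ≤ M0 ∧ wt k z = 1 ∧ wt g z < 1 ∧
    r = ((1 - wt g z)⁻¹ * mxl k a z, (1 - wt g z)⁻¹ * mxl k b z))

theorem fb_of_rest [Fintype E] {tl hd : E → Option N} {g k : E → ℝ} {M0 : ℕ} {a b : E → ℝ} {v w : N}
    {P : List E} {r : ℝ × ℝ} (hP : Wk tl hd v P w) (hl : P.length ≤ Fintype.card E)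
    (h : Rest tl hd g k M0 a b w r) :
    Fb tl hd g k (Fintype.card E) M0 a b v
      (max (mxl k a P) (wt k P * r.1), max (mxl k b P) (wt k P * r.2)) := by
  rcases h with ⟨s, h1, h2, rfl⟩ | ⟨z, h1, h2, h3, rfl⟩ | ⟨z, h1, h2, h3, h4, rfl⟩
  · exact Or.inl ⟨P, w, s, hP, hl, h1, h2, rfl⟩
  · exact Or.inr (Or.inl ⟨P, w, z, hP, hl, h1, h2, h3, rfl⟩)
  · exact Or.inr (Or.inr ⟨P, w, z, hP, hl, h1, h2, h3, h4, rfl⟩)

theorem rest_nonneg [Fintype E] {tl hd : E → Option N} {g k : E → ℝ} {M0 : ℕ} {a b : E → ℝ} {w : N}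
    {r : ℝ × ℝ} (hk : ∀ f, 0 < k f) (ha : ∀ f, 0 ≤ a f) (hb : ∀ f, 0 ≤ b f)
    (h : Rest tl hd g k M0 a b w r) : 0 ≤ r.1 ∧ 0 ≤ r.2 := by
  rcases h with ⟨s, h1, h2, rfl⟩ | ⟨z, h1, h2, h3, rfl⟩ | ⟨z, h1, h2, h3, h4, rfl⟩
  · exact ⟨ha s, hb s⟩
  · exact ⟨mxl_nonneg hk ha z, mxl_nonneg hk hb z⟩
  · have h5 : 0 ≤ (1 - wt g z)⁻¹ := inv_nonneg.2 (by linarith)
    exact ⟨mul_nonneg h5 (mxl_nonneg hk ha z), mul_nonneg h5 (mxl_nonneg hk hb z)⟩

/-- deleting a closed part of weight at least one makes a walk cheaper -/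
theorem del_le {k c : E → ℝ} (hk : ∀ f, 0 < k f) (hc : ∀ f, 0 ≤ c f) (R u l2 : List E) (r : ℝ)
    (hr : 0 ≤ r) (hu : 1 ≤ wt k u) :
    max (mxl k c (R ++ l2)) (wt k (R ++ l2) * r) ≤
      max (mxl k c (R ++ (u ++ l2))) (wt k (R ++ (u ++ l2)) * r) := by
  have h1 := wt_pos hk R
  have h2 := wt_pos hk l2
  have h3 := mxl_nonneg hk hc l2
  rw [mxl_append hk hc, mxl_append hk hc R, mxl_append hk hc u, wt_append, wt_append, wt_append]
  have h4 : mxl k c l2 ≤ max (mxl k c u) (wt k u * mxl k c l2) := by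
    refine le_trans ?_ (le_max_right _ _)
    nlinarith
  have h5 : wt k l2 ≤ wt k u * wt k l2 := by nlinarith
  apply max_le_max
  · apply max_le_max le_rfl
    exact mul_le_mul_of_nonneg_left h4 h1.le
  · apply mul_le_mul_of_nonneg_right _ hr
    exact mul_le_mul_of_nonneg_left h5 h1.le

/-- stopping at a closed part is cheaper -/
theorem stop_le {k c : E → ℝ} (hk : ∀ f, 0 < k f) (hc : ∀ f, 0 ≤ c f) (R u l2 : List E) :
    max (mxl k c R) (wt k R * mxl k c u) ≤ mxl k c (R ++ (u ++ l2)) := by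
  rw [mxl_append hk hc, mxl_append hk hc]
  apply max_le_max le_rfl
  exact mul_le_mul_of_nonneg_left (le_max_left _ _) (wt_pos hk R).le

theorem redP [Fintype E] (tl hd : E → Option N) (g k a b : E → ℝ) (M0 : ℕ) (v w : N) (r : ℝ × ℝ)
    (hk : ∀ f, 0 < k f) (ha : ∀ f, 0 ≤ a f) (hb : ∀ f, 0 ≤ b f)
    (hr : Rest tl hd g k M0 a b w r) : ∀ (n : ℕ) (P : List E), P.length ≤ n → Wk tl hd v P w →
    ∃ p', Fb tl hd g k (Fintype.card E) M0 a b v p' ∧
      p'.1 ≤ max (mxl k a P) (wt k P * r.1) ∧ p'.2 ≤ max (mxl k b P) (wt k P * r.2) := by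
  intro n
  induction n with
  | zero =>
    intro P hP hW
    exact ⟨_, fb_of_rest hW (by omega) hr, le_rfl, le_rfl⟩
  | succ n ih =>
    intro P hP hW
    obtain ⟨hr1, hr2⟩ := rest_nonneg hk ha hb hr
    by_cases hnd : P.Nodup
    · exact ⟨_, fb_of_rest hW (nodup_len hnd) hr, le_rfl, le_rfl⟩
    · obtain ⟨R, f, m, l2, hPe, hnd2⟩ := first_rep P hnd
      rw [hPe] at hW
      obtain ⟨x, h1, h2, h3⟩ := closed_part hW
      have hlen : (R ++ (f :: m)).length ≤ Fintype.card E := nodup_len hnd2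
      rw [List.length_append] at hlen
      by_cases hu : 1 ≤ wt k (f :: m)
      · have hW' : Wk tl hd v (R ++ (f :: l2)) w := Wk.append h1 h3
        have hl' : (R ++ (f :: l2)).length ≤ n := by
          rw [hPe] at hP
          simp only [List.length_append, List.length_cons] at hP ⊢
          omega
        obtain ⟨p', k1, k2, k3⟩ := ih (R ++ (f :: l2)) hl' hW'
        refine ⟨p', k1, k2.trans ?_, k3.trans ?_⟩
        · rw [hPe]
          exact del_le hk ha R (f :: m) (f :: l2) r.1 hr1 hu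
        · rw [hPe]
          exact del_le hk hb R (f :: m) (f :: l2) r.2 hr2 hu
      · push Not at hu
        refine ⟨(max (mxl k a R) (wt k R * mxl k a (f :: m)), max (mxl k b R) (wt k R * mxl k b (f :: m))),
          Or.inr (Or.inl ⟨R, x, f :: m, h1, by omega, h2, by omega, hu, rfl⟩), ?_, ?_⟩
        · rw [hPe]
          exact (stop_le hk ha R (f :: m) (f :: l2)).trans (le_max_left _ _)
        · rw [hPe]
          exact (stop_le hk hb R (f :: m) (f :: l2)).trans (le_max_left _ _)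

theorem redZ [Fintype E] (tl hd : E → Option N) (g k a b : E → ℝ) (M0 : ℕ) (v w : N)
    (hk : ∀ f, 0 < k f) (ha : ∀ f, 0 ≤ a f) (hb : ∀ f, 0 ≤ b f) (P : List E) (hP : Wk tl hd v P w) :
    ∀ (n : ℕ) (z : List E), z.length ≤ n → Wk tl hd w z w → wt k z < 1 →
    ∃ p', Fb tl hd g k (Fintype.card E) M0 a b v p' ∧
      p'.1 ≤ max (mxl k a P) (wt k P * mxl k a z) ∧ p'.2 ≤ max (mxl k b P) (wt k P * mxl k b z) := by
  intro n
  induction n with
  | zero =>
    intro z hz hW hw
    exact redP tl hd g k a b M0 v w (mxl k a z, mxl k b z) hk ha hb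
      (Or.inr (Or.inl ⟨z, hW, by omega, hw, rfl⟩)) P.length P le_rfl hP
  | succ n ih =>
    intro z hz hW hw
    by_cases hnd : z.Nodup
    · exact redP tl hd g k a b M0 v w (mxl k a z, mxl k b z) hk ha hb
        (Or.inr (Or.inl ⟨z, hW, nodup_len hnd, hw, rfl⟩)) P.length P le_rfl hP
    · obtain ⟨R, f, m, l2, hze, hnd2⟩ := first_rep z hnd
      rw [hze] at hW
      obtain ⟨x, h1, h2, h3⟩ := closed_part hW
      have hlen : (R ++ (f :: m)).length ≤ Fintype.card E := nodup_len hnd2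
      rw [List.length_append] at hlen
      have hwP := wt_pos hk P
      by_cases hu : 1 ≤ wt k (f :: m)
      · have hW' : Wk tl hd w (R ++ (f :: l2)) w := Wk.append h1 h3
        have hl' : (R ++ (f :: l2)).length ≤ n := by
          rw [hze] at hz
          simp only [List.length_append, List.length_cons] at hz ⊢
          omega
        have hw' : wt k (R ++ (f :: l2)) < 1 := by
          rw [hze] at hw
          refine lt_of_le_of_lt ?_ hw
          rw [wt_append, wt_append, wt_append]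
          have h4 := wt_pos hk R
          have h5 := wt_pos hk (f :: l2)
          have h6 : wt k (f :: l2) ≤ wt k (f :: m) * wt k (f :: l2) := by nlinarith
          exact mul_le_mul_of_nonneg_left h6 h4.le
        obtain ⟨p', k1, k2, k3⟩ := ih (R ++ (f :: l2)) hl' hW' hw'
        have hd1 : ∀ c : E → ℝ, (∀ f, 0 ≤ c f) → mxl k c (R ++ (f :: l2)) ≤ mxl k c z := by
          intro c hc
          have := del_le hk hc R (f :: m) (f :: l2) 0 le_rfl hu
          rw [mul_zero, mul_zero, max_eq_left (mxl_nonneg hk hc _), max_eq_left (mxl_nonneg hk hc _)] at this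
          rw [hze]
          exact this
        refine ⟨p', k1, k2.trans ?_, k3.trans ?_⟩
        · exact max_le_max le_rfl (mul_le_mul_of_nonneg_left (hd1 a ha) hwP.le)
        · exact max_le_max le_rfl (mul_le_mul_of_nonneg_left (hd1 b hb) hwP.le)
      · push Not at hu
        obtain ⟨p', k1, k2, k3⟩ := redP tl hd g k a b M0 v x (mxl k a (f :: m), mxl k b (f :: m)) hk ha hb
          (Or.inr (Or.inl ⟨f :: m, h2, by omega, hu, rfl⟩)) (P ++ R).length (P ++ R) le_rfl
          (Wk.append hP h1)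
        have hd1 : ∀ c : E → ℝ, (∀ f, 0 ≤ c f) →
            max (mxl k c (P ++ R)) (wt k (P ++ R) * mxl k c (f :: m)) ≤
              max (mxl k c P) (wt k P * mxl k c z) := by
          intro c hc
          rw [mxl_append hk hc, wt_append, mul_assoc, max_assoc, ← mul_max_of_nonneg _ _ hwP.le]
          apply max_le_max le_rfl
          apply mul_le_mul_of_nonneg_left _ hwP.le
          rw [hze]
          exact stop_le hk hc R (f :: m) (f :: l2)
        exact ⟨p', k1, k2.trans (hd1 a ha), k3.trans (hd1 b hb)⟩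

theorem red : S_RED := by
  intro E N _ _ _ tl hd g k a b L M0 v p hk ha hb h
  rcases h with ⟨P, w, s, hP, _, h1, h2, rfl⟩ | ⟨P, w, z, hP, _, h1, _, h3, rfl⟩ |
    ⟨P, w, z, hP, _, h1, h2, h3, h4, rfl⟩
  · exact redP tl hd g k a b M0 v w (a s, b s) hk ha hb (Or.inl ⟨s, h1, h2, rfl⟩) P.length P le_rfl hP
  · exact redZ tl hd g k a b M0 v w hk ha hb P hP z.length z le_rfl h1 h3
  · exact redP tl hd g k a b M0 v w ((1 - wt g z)⁻¹ * mxl k a z, (1 - wt g z)⁻¹ * mxl k b z) hk ha hb
      (Or.inr (Or.inr ⟨z, h1, h2, h3, h4, rfl⟩)) P.length P le_rfl hP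

end Pool.Agent.L7h32.TV
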