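import Mathlib
import Pool.Agent.L7h39.TV.Stm
import Pool.Agent.L7h39.TV.Basic

set_option autoImplicit false

/-! The cost of the disposal of a unit at a node, up to a factor, as a minimum of few maxima. -/

namespace Pool.Agent.L7h32.TV.Tp

open Pool.Agent.L7h39.TV

variable {E N : Type}

/-- The chord of a convex function. -/
theorem two_rpow_neg_le {x : ℝ} (h0 : 0 ≤ x) (h1 : x ≤ 1) : (2 : ℝ) ^ (-x) ≤ 1 - x / 2 := by
  have h := rpow_one_add_le_one_add_mul_self (s := -(1 / 2)) (by norm_num) h0 h1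
  have e : (2 : ℝ) ^ (-x) = (1 + -(1 / 2)) ^ x := by
    rw [Real.rpow_neg (by norm_num), ← Real.inv_rpow (by norm_num)]
    norm_num
  rw [e]
  refine h.trans (le_of_eq (by ring))

section

variable {g k : E → ℝ} {lam : ℝ} {M : ℕ}

theorem rho_le (h1 : 0 < lam) (h2 : lam ≤ 1) :
    1 ≤ (2 : ℝ) ^ (lam / 8) ∧ (2 : ℝ) ^ (lam / 8) * (2 : ℝ) ^ (lam / 8) ≤ 2 := by
  constructor
  · exact Real.one_le_rpow (by norm_num) (by positivity)
  · rw [← Real.rpow_add (by norm_num)]
    calc (2 : ℝ) ^ (lam / 8 + lam / 8) ≤ 2 ^ (1 : ℝ) :=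
          Real.rpow_le_rpow_of_exponent_le (by norm_num) (by linarith)
      _ = 2 := by norm_num

theorem low {c : E → ℝ} (h : Crs g k lam M) (hc : ∀ f, 0 ≤ c f) (l : List E) :
    ∀ q : List E, q.length + l.length ≤ M →
      wt k q * mxl k c l ≤ 2 ^ (lam / 8) * (wt g q * sml g c l) := by
  obtain ⟨hg, hk, h1, h2, h3⟩ := h
  have hr : (0 : ℝ) < 2 ^ (lam / 8) := by positivity
  induction l with
  | nil =>
    intro q _
    simp [mxl_nil, sml_nil]
  | cons f l ih =>
    intro q hq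
    rw [List.length_cons] at hq
    rw [mxl_cons, sml_cons, mul_max_of_nonneg _ _ (wt_pos hk q).le]
    have hs := sml_nonneg hg hc l
    have hq0 := wt_pos hg q
    apply max_le
    · have h4 := (h3 q (by omega)).2.1
      have h5 := mul_le_mul_of_nonneg_right h4 (hc f)
      have h6 : 0 ≤ 2 ^ (lam / 8) * (wt g q * (g f * sml g c l)) := by
        have := (hg f).le
        positivity
      calc wt k q * c f ≤ 2 ^ (lam / 8) * wt g q * c f := h5
        _ ≤ 2 ^ (lam / 8) * wt g q * c f + 2 ^ (lam / 8) * (wt g q * (g f * sml g c l)) := by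
            linarith
        _ = _ := by ring
    · have h4 := ih (q ++ [f]) (by rw [List.length_append, List.length_singleton]; omega)
      rw [wt_append, wt_append, wt_cons, wt_cons, wt_nil, wt_nil, mul_one, mul_one] at h4
      have h6 : 0 ≤ 2 ^ (lam / 8) * (wt g q * c f) := by
        have := hc f
        positivity
      calc wt k q * (k f * mxl k c l) = wt k q * k f * mxl k c l := by ring
        _ ≤ 2 ^ (lam / 8) * (wt g q * g f * sml g c l) := h4
        _ ≤ 2 ^ (lam / 8) * (wt g q * g f * sml g c l) + 2 ^ (lam / 8) * (wt g q * c f) := by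
            linarith
        _ = _ := by ring

theorem upp {c : E → ℝ} (h : Crs g k lam M) (hc : ∀ f, 0 ≤ c f) (l : List E) :
    ∀ q : List E, q.length + l.length ≤ M →
      wt g q * sml g c l ≤ l.length * (2 ^ (lam / 8) * (wt k q * mxl k c l)) := by
  obtain ⟨hg, hk, h1, h2, h3⟩ := h
  have hr : (0 : ℝ) < 2 ^ (lam / 8) := by positivity
  induction l with
  | nil =>
    intro q _
    simp [mxl_nil, sml_nil]
  | cons f l ih =>
    intro q hq
    rw [List.length_cons] at hq
    rw [mxl_cons, sml_cons, List.length_cons]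
    push_cast
    have h4 := (h3 q (by omega)).1
    have h5 := mul_le_mul_of_nonneg_right h4 (hc f)
    have h6 := ih (q ++ [f]) (by rw [List.length_append, List.length_singleton]; omega)
    rw [wt_append, wt_append, wt_cons, wt_cons, wt_nil, wt_nil, mul_one, mul_one] at h6
    have hq0 := wt_pos hk q
    have h7 : 2 ^ (lam / 8) * wt k q * c f ≤
        2 ^ (lam / 8) * (wt k q * max (c f) (k f * mxl k c l)) := by
      rw [mul_assoc]
      exact mul_le_mul_of_nonneg_left (mul_le_mul_of_nonneg_left (le_max_left _ _) hq0.le) hr.le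
    have h8 : (l.length : ℝ) * (2 ^ (lam / 8) * (wt k q * k f * mxl k c l)) ≤
        l.length * (2 ^ (lam / 8) * (wt k q * max (c f) (k f * mxl k c l))) := by
      refine mul_le_mul_of_nonneg_left (mul_le_mul_of_nonneg_left ?_ hr.le) (Nat.cast_nonneg _)
      rw [mul_assoc]
      exact mul_le_mul_of_nonneg_left (le_max_right _ _) hq0.le
    calc wt g q * (c f + g f * sml g c l) = wt g q * c f + wt g q * g f * sml g c l := by ring
      _ ≤ 2 ^ (lam / 8) * (wt k q * max (c f) (k f * mxl k c l)) +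
          l.length * (2 ^ (lam / 8) * (wt k q * max (c f) (k f * mxl k c l))) := by
          linarith
      _ = _ := by ring

theorem low_nil {c : E → ℝ} (h : Crs g k lam M) (hc : ∀ f, 0 ≤ c f) {l : List E}
    (hl : l.length ≤ M) : mxl k c l ≤ 2 ^ (lam / 8) * sml g c l := by
  have := low h hc l [] (by simpa using hl)
  rwa [wt_nil, wt_nil, one_mul, one_mul] at this

theorem upp_nil {c : E → ℝ} (h : Crs g k lam M) (hc : ∀ f, 0 ≤ c f) {l : List E}
    (hl : l.length ≤ M) : sml g c l ≤ l.length * (2 ^ (lam / 8) * mxl k c l) := by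
  have := upp h hc l [] (by simpa using hl)
  rwa [wt_nil, wt_nil, one_mul, one_mul] at this

/-- A closed walk which is short and has gain below `1`. -/
theorem tri (h : Crs g k lam M) {z : List E} (hz : z.length ≤ M) (hg1 : wt g z < 1) :
    wt k z = 1 ∨ wt k z < 1 := by
  obtain ⟨hg, hk, h1, h2, h3⟩ := h
  obtain ⟨h4, h5, h6⟩ := h3 z hz
  rcases h6 with h6 | h6 | h6
  · exact Or.inl h6
  · exfalso
    have hr : (0 : ℝ) < 2 ^ (lam / 8) := by positivity
    have h7 : (2 : ℝ) ^ (lam / 8) ≤ 2 ^ lam :=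
      Real.rpow_le_rpow_of_exponent_le (by norm_num) (by linarith)
    have h8 : 2 ^ (lam / 8) * wt g z < 2 ^ (lam / 8) * 1 := mul_lt_mul_of_pos_left hg1 hr
    linarith
  · right
    have h7 : (2 : ℝ) ^ (-lam) < 1 := Real.rpow_lt_one_of_one_lt_of_neg (by norm_num) (by linarith)
    linarith

theorem inv_le (h : Crs g k lam M) {z : List E} (hz : z.length ≤ M) (hk1 : wt k z < 1) :
    wt g z < 1 ∧ (1 - wt g z)⁻¹ ≤ 4 / lam := by
  obtain ⟨hg, hk, h1, h2, h3⟩ := h
  obtain ⟨h4, h5, h6⟩ := h3 z hz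
  have h7 : wt k z ≤ 2 ^ (-lam) := by
    rcases h6 with h6 | h6 | h6
    · exact absurd h6 hk1.ne
    · have : (1 : ℝ) ≤ 2 ^ lam := Real.one_le_rpow (by norm_num) h1.le
      linarith
    · exact h6
  have hr : (0 : ℝ) < 2 ^ (lam / 8) := by positivity
  have h8 : wt g z ≤ 2 ^ (-(7 * lam / 8)) := by
    refine h4.trans ((mul_le_mul_of_nonneg_left h7 hr.le).trans (le_of_eq ?_))
    rw [← Real.rpow_add (by norm_num)]
    congr 1
    ring
  have h9 := two_rpow_neg_le (x := 7 * lam / 8) (by positivity) (by linarith)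
  have h10 : wt g z ≤ 1 - lam / 4 := by linarith
  refine ⟨by linarith, ?_⟩
  rw [inv_le_comm₀ (by linarith) (by positivity), inv_div]
  linarith

end

variable [Fintype E] [DecidableEq E] [DecidableEq N]

variable {tl hd : E → Option N} {g k a b : E → ℝ} {lam : ℝ} {M0 : ℕ} {v : N}

theorem Fb.nonneg (hk : ∀ f, 0 < k f) (ha : ∀ f, 0 ≤ a f) (hb : ∀ f, 0 ≤ b f) {L : ℕ} {p : ℝ × ℝ}
    (h : Fb tl hd g k L M0 a b v p) : 0 ≤ p.1 ∧ 0 ≤ p.2 := by
  rcases h with ⟨P, w, s, -, -, -, -, rfl⟩ | ⟨P, w, z, -, -, -, -, -, rfl⟩ |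
    ⟨P, w, z, -, -, -, -, -, -, rfl⟩
  all_goals exact ⟨(mxl_nonneg ha P).trans (le_max_left _ _),
    (mxl_nonneg hb P).trans (le_max_left _ _)⟩

/-- The first kind: comparison of the costs. -/
theorem cmp1 (hC : Crs g k lam M0) {c : E → ℝ} (hc : ∀ f, 0 ≤ c f) {P : List E} {s : E}
    (hP : P.length ≤ M0) :
    max (mxl k c P) (wt k P * c s) ≤ 2 * (sml g c P + wt g P * c s) := by
  have hr := rho_le hC.2.2.1 hC.2.2.2.1
  have hg := hC.1
  have hk := hC.2.1
  have h1 := low_nil hC hc hP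
  have h2 := (hC.2.2.2.2 P hP).2.1
  have h3 := sml_nonneg hg hc P
  have h4 := wt_pos hg P
  have h5 := hc s
  have h6 := mul_le_mul_of_nonneg_right h2 h5
  set r := (2 : ℝ) ^ (lam / 8)
  have hr2 : r ≤ 2 := by nlinarith [hr.1, hr.2]
  have h7 : r * sml g c P ≤ 2 * sml g c P := mul_le_mul_of_nonneg_right hr2 h3
  have h8 : r * (wt g P * c s) ≤ 2 * (wt g P * c s) :=
    mul_le_mul_of_nonneg_right hr2 (by positivity)
  have h9 : 0 ≤ wt g P * c s := by positivity
  apply max_le
  · linarith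
  · have : wt k P * c s ≤ r * (wt g P * c s) := by linarith
    linarith

/-- The product of two comparisons. -/
theorem mulc (hC : Crs g k lam M0) {c : E → ℝ} (hc : ∀ f, 0 ≤ c f) {P z : List E}
    (hP : P.length ≤ M0) (hz : z.length ≤ M0) {t : ℝ} (ht : 0 ≤ t) :
    wt k P * (t * mxl k c z) ≤ 2 * (wt g P * (t * sml g c z)) := by
  have hr := rho_le hC.2.2.1 hC.2.2.2.1
  have hg := hC.1
  have hk := hC.2.1
  have h1 := low_nil hC hc hz
  have h2 := (hC.2.2.2.2 P hP).2.1
  have h3 := sml_nonneg hg hc z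
  have h4 := wt_pos hg P
  have h5 := wt_pos hk P
  have h6 := mxl_nonneg (k := k) hc z
  set r := (2 : ℝ) ^ (lam / 8)
  have h7 : wt k P * mxl k c z ≤ (r * wt g P) * (r * sml g c z) :=
    mul_le_mul h2 h1 h6 (by nlinarith [hr.1])
  have h8 : wt k P * mxl k c z ≤ 2 * (wt g P * sml g c z) := by
    have : (r * wt g P) * (r * sml g c z) = (r * r) * (wt g P * sml g c z) := by ring
    rw [this] at h7
    exact h7.trans (mul_le_mul_of_nonneg_right hr.2 (by positivity))
  calc wt k P * (t * mxl k c z) = t * (wt k P * mxl k c z) := by ring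
    _ ≤ t * (2 * (wt g P * sml g c z)) := mul_le_mul_of_nonneg_left h8 ht
    _ = _ := by ring

theorem cmp3 (hC : Crs g k lam M0) {c : E → ℝ} (hc : ∀ f, 0 ≤ c f) {P z : List E}
    (hP : P.length ≤ M0) (hz : z.length ≤ M0) {t t' : ℝ} (ht : 0 ≤ t) (htt : t ≤ t') :
    max (mxl k c P) (wt k P * (t * mxl k c z)) ≤ 2 * (sml g c P + wt g P * (t' * sml g c z)) := by
  have hr := rho_le hC.2.2.1 hC.2.2.2.1
  have hg := hC.1
  have hk := hC.2.1
  have h1 := low_nil hC hc hP
  have h3 := sml_nonneg hg hc P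
  have h4 := wt_pos hg P
  have h5 := sml_nonneg hg hc z
  have h6 := mulc hC hc hP hz ht
  have h7 : wt g P * (t * sml g c z) ≤ wt g P * (t' * sml g c z) :=
    mul_le_mul_of_nonneg_left (mul_le_mul_of_nonneg_right htt h5) h4.le
  have h8 : 0 ≤ wt g P * (t' * sml g c z) := by
    have := ht.trans htt
    positivity
  set r := (2 : ℝ) ^ (lam / 8)
  have hr2 : r ≤ 2 := by nlinarith [hr.1, hr.2]
  have h9 : r * sml g c P ≤ 2 * sml g c P := mul_le_mul_of_nonneg_right hr2 h3
  apply max_le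
  · linarith
  · linarith

/-- The lower bound. -/
theorem lower (hP1 : S_P1) (hC : Crs g k lam M0) (hM : Fintype.card E ≤ M0)
    (ha : ∀ f, 0 ≤ a f) (hb : ∀ f, 0 ≤ b f) {θ : ℝ} (hθ : 0 < θ) {y : E → ℝ}
    (hy : ∀ f, 0 ≤ y f) (hd0 : ∀ u, 0 ≤ dd tl hd g y u) (hv : 0 < dd tl hd g y v) :
    ∃ p, Fb tl hd g k (Fintype.card E) M0 a b v p ∧
      dd tl hd g y v * max p.1 (θ * p.2) ≤ 2 * ∑ f, (a f + θ * b f) * y f := by
  have hg := hC.1
  have hk := hC.2.1
  have hθb : ∀ f, 0 ≤ θ * b f := fun f => mul_nonneg hθ.le (hb f)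
  have hc : ∀ f, 0 ≤ a f + θ * b f := fun f => add_nonneg (ha f) (hθb f)
  have key : ∀ (A B S T : ℝ), A ≤ 2 * S → θ * B ≤ 2 * T → 0 ≤ S → 0 ≤ T →
      dd tl hd g y v * (S + T) ≤ ∑ f, (a f + θ * b f) * y f →
      dd tl hd g y v * max A (θ * B) ≤ 2 * ∑ f, (a f + θ * b f) * y f := by
    intro A B S T h1 h2 h3 h4 h5
    have h6 : max A (θ * B) ≤ 2 * (S + T) := max_le (by linarith) (by linarith)
    calc dd tl hd g y v * max A (θ * B) ≤ dd tl hd g y v * (2 * (S + T)) :=
          mul_le_mul_of_nonneg_left h6 hv.le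
      _ = 2 * (dd tl hd g y v * (S + T)) := by ring
      _ ≤ _ := by linarith
  rcases hP1 E N tl hd g (fun f => a f + θ * b f) y v (dd tl hd g y v) hg hc hy hd0 hv le_rfl
    with ⟨P, w, s, h1, h2, h3, h4, h5⟩ | ⟨P, w, z, h1, h2, h3, h4, h5, h6⟩
  · refine ⟨_, Or.inl ⟨P, w, s, h1, h2, h3, h4, rfl⟩, ?_⟩
    have hP0 := h2.trans hM
    refine key _ _ (sml g a P + wt g P * a s) (sml g (fun f => θ * b f) P + wt g P * (θ * b s))
      (cmp1 hC ha hP0) ?_ ?_ ?_ ?_
    · have := cmp1 (c := fun f => θ * b f) (s := s) hC hθb hP0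
      rw [mxl_smul hθ.le] at this
      refine le_trans (le_of_eq ?_) this
      rw [mul_max_of_nonneg _ _ hθ.le]
      congr 1
      ring
    · exact add_nonneg (sml_nonneg hg ha P) (mul_nonneg (wt_pos hg P).le (ha s))
    · exact add_nonneg (sml_nonneg hg hθb P) (mul_nonneg (wt_pos hg P).le (hθb s))
    · rw [sml_add] at h5
      refine le_trans (le_of_eq ?_) h5
      ring
  · have hP0 := h2.trans hM
    have hz0 := h4.trans hM
    have hgz := wt_pos hg z
    have hinv : 1 ≤ (1 - wt g z)⁻¹ := (one_le_inv₀ (by linarith)).2 (by linarith)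
    have hinv0 : 0 ≤ (1 - wt g z)⁻¹ := by linarith
    have hlast : dd tl hd g y v * ((sml g a P + wt g P * ((1 - wt g z)⁻¹ * sml g a z)) +
        (sml g (fun f => θ * b f) P +
          wt g P * ((1 - wt g z)⁻¹ * sml g (fun f => θ * b f) z))) ≤
        ∑ f, (a f + θ * b f) * y f := by
      rw [sml_add, sml_add] at h6
      refine le_trans (le_of_eq ?_) h6
      ring
    have hn1 : 0 ≤ sml g a P + wt g P * ((1 - wt g z)⁻¹ * sml g a z) :=
      add_nonneg (sml_nonneg hg ha P)
        (mul_nonneg (wt_pos hg P).le (mul_nonneg hinv0 (sml_nonneg hg ha z)))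
    have hn2 : 0 ≤ sml g (fun f => θ * b f) P +
        wt g P * ((1 - wt g z)⁻¹ * sml g (fun f => θ * b f) z) :=
      add_nonneg (sml_nonneg hg hθb P)
        (mul_nonneg (wt_pos hg P).le (mul_nonneg hinv0 (sml_nonneg hg hθb z)))
    rcases tri hC hz0 h5 with h7 | h7
    · refine ⟨_, Or.inr (Or.inr ⟨P, w, z, h1, h2, h3, hz0, h7, h5, rfl⟩), ?_⟩
      refine key _ _ _ _ (cmp3 hC ha hP0 hz0 hinv0 le_rfl) ?_ hn1 hn2 hlast
      have := cmp3 (c := fun f => θ * b f) hC hθb hP0 hz0 hinv0 le_rfl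
      rw [mxl_smul hθ.le, mxl_smul hθ.le] at this
      refine le_trans (le_of_eq ?_) this
      rw [mul_max_of_nonneg _ _ hθ.le]
      congr 1
      ring
    · refine ⟨_, Or.inr (Or.inl ⟨P, w, z, h1, h2, h3, h4, h7, rfl⟩), ?_⟩
      refine key _ _ _ _ ?_ ?_ hn1 hn2 hlast
      · have := cmp3 (t := 1) (t' := (1 - wt g z)⁻¹) hC ha hP0 hz0 zero_le_one hinv
        rw [one_mul] at this
        exact this
      · have := cmp3 (c := fun f => θ * b f) (t := 1) (t' := (1 - wt g z)⁻¹) hC hθb hP0 hz0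
          zero_le_one hinv
        rw [mxl_smul hθ.le, mxl_smul hθ.le, one_mul] at this
        refine le_trans (le_of_eq ?_) this
        rw [mul_max_of_nonneg _ _ hθ.le]
        congr 1
        ring

/-- The length of a part of the walk. -/
theorem uc (hC : Crs g k lam M0) {c : E → ℝ} (hc : ∀ f, 0 ≤ c f) {P : List E}
    (hP : P.length ≤ M0) : sml g c P ≤ 2 * M0 * mxl k c P := by
  have hr := rho_le hC.2.2.1 hC.2.2.2.1
  have h1 := upp_nil hC hc hP
  have h2 := mxl_nonneg (k := k) hc P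
  set r := (2 : ℝ) ^ (lam / 8)
  have hr2 : r ≤ 2 := by nlinarith [hr.1, hr.2]
  have h3 : (P.length : ℝ) ≤ M0 := by exact_mod_cast hP
  calc sml g c P ≤ P.length * (r * mxl k c P) := h1
    _ ≤ M0 * (2 * mxl k c P) := by
        apply mul_le_mul h3 (mul_le_mul_of_nonneg_right hr2 h2) _ (Nat.cast_nonneg _)
        have := hr.1
        positivity
    _ = _ := by ring

theorem uc2 (hC : Crs g k lam M0) {c : E → ℝ} (hc : ∀ f, 0 ≤ c f) {P z : List E}
    (hP : P.length ≤ M0) (hz : z.length ≤ M0) :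
    wt g P * sml g c z ≤ 2 * M0 * (wt k P * mxl k c z) := by
  have hr := rho_le hC.2.2.1 hC.2.2.2.1
  have hg := hC.1
  have hk := hC.2.1
  have h1 := upp_nil hC hc hz
  have h2 := mxl_nonneg (k := k) hc z
  have h4 := (hC.2.2.2.2 P hP).1
  have h5 := sml_nonneg hg hc z
  have h6 := wt_pos hk P
  set r := (2 : ℝ) ^ (lam / 8)
  have h3 : (z.length : ℝ) ≤ M0 := by exact_mod_cast hz
  have hr1 := hr.1
  calc wt g P * sml g c z ≤ (r * wt k P) * (z.length * (r * mxl k c z)) :=
        mul_le_mul h4 h1 h5 (by positivity)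
    _ = (r * r) * (z.length * (wt k P * mxl k c z)) := by ring
    _ ≤ 2 * (M0 * (wt k P * mxl k c z)) := by
        apply mul_le_mul hr.2 (mul_le_mul_of_nonneg_right h3 (by positivity)) (by positivity)
          (by norm_num)
    _ = _ := by ring

/-- A flow for the first kind. -/
theorem flow1 (hg : ∀ f, 0 < g f) {P : List E} {w : N} {s : E} (h1 : Wk tl hd v P w)
    (h2 : tl s = some w) (h3 : hd s = none) :
    ∃ y : E → ℝ, (∀ f, 0 ≤ y f) ∧ (∀ u, dd tl hd g y u = if u = v then 1 else 0) ∧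
      ∀ c : E → ℝ, ∑ f, c f * y f = sml g c P + wt g P * c s := by
  refine ⟨vec g P + wt g P • Pi.single s 1, ?_, ?_, ?_⟩
  · intro f
    simp only [Pi.add_apply, Pi.smul_apply, smul_eq_mul]
    refine add_nonneg (vec_nonneg hg P f) (mul_nonneg (wt_pos hg P).le ?_)
    by_cases h : f = s
    · subst h; simp
    · rw [Pi.single_eq_of_ne h]
  · intro u
    rw [dd_add, dd_smul, dd_vec tl hd g h1, dd_single, h2, h3]
    simp only [Option.some.injEq, reduceCtorEq, if_false, eq_comm (a := w)]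
    ring
  · intro c
    simp only [Pi.add_apply, Pi.smul_apply, smul_eq_mul, mul_add]
    rw [Finset.sum_add_distrib, sum_vec]
    congr 1
    rw [Finset.sum_eq_single s]
    · simp
      ring
    · intro f _ hf
      rw [Pi.single_eq_of_ne hf]
      ring
    · intro h
      exact absurd (Finset.mem_univ _) h

/-- A flow for the other kinds. -/
theorem flow2 (hg : ∀ f, 0 < g f) {P z : List E} {w : N} (h1 : Wk tl hd v P w)
    (h2 : Wk tl hd w z w) (h3 : wt g z < 1) :
    ∃ y : E → ℝ, (∀ f, 0 ≤ y f) ∧ (∀ u, dd tl hd g y u = if u = v then 1 else 0) ∧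
      ∀ c : E → ℝ, ∑ f, c f * y f = sml g c P + wt g P * ((1 - wt g z)⁻¹ * sml g c z) := by
  have h4 : 0 < 1 - wt g z := by linarith
  refine ⟨vec g P + (wt g P * (1 - wt g z)⁻¹) • vec g z, ?_, ?_, ?_⟩
  · intro f
    simp only [Pi.add_apply, Pi.smul_apply, smul_eq_mul]
    exact add_nonneg (vec_nonneg hg P f)
      (mul_nonneg (mul_nonneg (wt_pos hg P).le (inv_nonneg.2 h4.le)) (vec_nonneg hg z f))
  · intro u
    rw [dd_add, dd_smul, dd_vec tl hd g h1, dd_vec tl hd g h2]
    have h5 : (1 - wt g z)⁻¹ * (1 - wt g z) = 1 := inv_mul_cancel₀ h4.ne'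
    by_cases hu : u = w
    · simp only [hu, if_true]
      linear_combination (wt g P) * h5
    · simp only [hu, if_false]
      ring
  · intro c
    simp only [Pi.add_apply, Pi.smul_apply, smul_eq_mul, mul_add]
    rw [Finset.sum_add_distrib, sum_vec, ← sum_vec g c z]
    congr 1
    rw [Finset.mul_sum, Finset.mul_sum]
    refine Finset.sum_congr rfl fun f _ => ?_
    ring

theorem ub_arith {m T lam A B X Y p : ℝ} (hm : 0 ≤ m) (hl : 0 < lam) (hl1 : lam ≤ 1)
    (hT : 0 ≤ T) (hT1 : T * lam ≤ 4 * Y) (hY : 0 ≤ Y) (hA : X ≤ 2 * m * A) (hA1 : A ≤ p)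
    (hB : Y * B ≤ p) (hp : 0 ≤ p) (hB0 : 0 ≤ B) :
    X + T * (2 * m * B) ≤ 20 * (m + 1) / lam * p := by
  have h1 : X * lam ≤ 2 * m * p := by
    have h2 : 2 * m * A ≤ 2 * m * p := mul_le_mul_of_nonneg_left hA1 (by positivity)
    have h3 : X * lam ≤ 2 * m * p * lam := mul_le_mul_of_nonneg_right (hA.trans h2) hl.le
    have h4 : 2 * m * p * lam ≤ 2 * m * p * 1 := mul_le_mul_of_nonneg_left hl1 (by positivity)
    linarith
  have h2 : T * (2 * m * B) * lam ≤ 8 * m * p := by
    have h3 : T * lam * (2 * m * B) ≤ 4 * Y * (2 * m * B) :=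
      mul_le_mul_of_nonneg_right hT1 (by positivity)
    have h4 : 8 * m * (Y * B) ≤ 8 * m * p := mul_le_mul_of_nonneg_left hB (by positivity)
    nlinarith
  rw [div_mul_eq_mul_div, le_div_iff₀ hl]
  nlinarith [mul_nonneg hm hp]

/-- The upper bound. -/
theorem upper (hC : Crs g k lam M0) (hM : Fintype.card E ≤ M0)
    (ha : ∀ f, 0 ≤ a f) (hb : ∀ f, 0 ≤ b f) {p : ℝ × ℝ}
    (h : Fb tl hd g k (Fintype.card E) M0 a b v p) :
    ∃ y : E → ℝ, (∀ f, 0 ≤ y f) ∧ (∀ u, dd tl hd g y u = if u = v then 1 else 0) ∧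
      ∑ f, a f * y f ≤ 20 * (M0 + 1) / lam * p.1 ∧
      ∑ f, b f * y f ≤ 20 * (M0 + 1) / lam * p.2 := by
  have hg := hC.1
  have hk := hC.2.1
  have hl := hC.2.2.1
  have hl1 := hC.2.2.2.1
  have hr := rho_le hl hl1
  have hp := Fb.nonneg hk ha hb h
  have hM0 : (0 : ℝ) ≤ M0 := Nat.cast_nonneg _
  rcases h with ⟨P, w, s, h1, h2, h3, h4, rfl⟩ | ⟨P, w, z, h1, h2, h3, h4, h5, rfl⟩ |
    ⟨P, w, z, h1, h2, h3, h4, h5, h6, rfl⟩
  · obtain ⟨y, hy, hdd, hcost⟩ := flow1 hg h1 h3 h4
    refine ⟨y, hy, hdd, ?_, ?_⟩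
    · rw [hcost]
      have key : ∀ c : E → ℝ, (∀ f, 0 ≤ c f) → sml g c P + wt g P * c s ≤
          20 * (M0 + 1) / lam * max (mxl k c P) (wt k P * c s) := by
        intro c hc
        have hP0 := h2.trans hM
        have e1 := uc hC hc hP0
        have e2 := (hC.2.2.2.2 P hP0).1
        have e3 := mul_le_mul_of_nonneg_right e2 (hc s)
        have e4 : (2 : ℝ) ^ (lam / 8) * (wt k P * c s) ≤ 2 * (wt k P * c s) := by
          refine mul_le_mul_of_nonneg_right ?_ (mul_nonneg (wt_pos hk P).le (hc s))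
          nlinarith [hr.1, hr.2]
        set m := max (mxl k c P) (wt k P * c s) with hm
        have e5 : mxl k c P ≤ m := le_max_left _ _
        have e6 : wt k P * c s ≤ m := le_max_right _ _
        have e7 : 0 ≤ m := (mxl_nonneg hc P).trans e5
        have e8 : 2 * M0 * mxl k c P ≤ 2 * M0 * m :=
          mul_le_mul_of_nonneg_left e5 (by positivity)
        have e9 : sml g c P + wt g P * c s ≤ (2 * M0 + 2) * m := by
          have : (2 : ℝ) ^ (lam / 8) * wt k P * c s = 2 ^ (lam / 8) * (wt k P * c s) := by ring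
          linarith
        refine e9.trans (mul_le_mul_of_nonneg_right ?_ e7)
        rw [le_div_iff₀ hl]
        nlinarith
      exact key a ha
    · rw [hcost]
      have key : ∀ c : E → ℝ, (∀ f, 0 ≤ c f) → sml g c P + wt g P * c s ≤
          20 * (M0 + 1) / lam * max (mxl k c P) (wt k P * c s) := by
        intro c hc
        have hP0 := h2.trans hM
        have e1 := uc hC hc hP0
        have e2 := (hC.2.2.2.2 P hP0).1
        have e3 := mul_le_mul_of_nonneg_right e2 (hc s)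
        have e4 : (2 : ℝ) ^ (lam / 8) * (wt k P * c s) ≤ 2 * (wt k P * c s) := by
          refine mul_le_mul_of_nonneg_right ?_ (mul_nonneg (wt_pos hk P).le (hc s))
          nlinarith [hr.1, hr.2]
        set m := max (mxl k c P) (wt k P * c s) with hm
        have e5 : mxl k c P ≤ m := le_max_left _ _
        have e6 : wt k P * c s ≤ m := le_max_right _ _
        have e7 : 0 ≤ m := (mxl_nonneg hc P).trans e5
        have e8 : 2 * M0 * mxl k c P ≤ 2 * M0 * m :=
          mul_le_mul_of_nonneg_left e5 (by positivity)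
        have e9 : sml g c P + wt g P * c s ≤ (2 * M0 + 2) * m := by
          have : (2 : ℝ) ^ (lam / 8) * wt k P * c s = 2 ^ (lam / 8) * (wt k P * c s) := by ring
          linarith
        refine e9.trans (mul_le_mul_of_nonneg_right ?_ e7)
        rw [le_div_iff₀ hl]
        nlinarith
      exact key b hb
  · have hP0 := h2.trans hM
    have hz0 := h4.trans hM
    obtain ⟨h6, h7⟩ := inv_le hC hz0 h5
    obtain ⟨y, hy, hdd, hcost⟩ := flow2 hg h1 h3 h6
    have hinv : 0 ≤ (1 - wt g z)⁻¹ := inv_nonneg.2 (by linarith)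
    have key : ∀ c : E → ℝ, (∀ f, 0 ≤ c f) →
        sml g c P + wt g P * ((1 - wt g z)⁻¹ * sml g c z) ≤
          20 * (M0 + 1) / lam * max (mxl k c P) (wt k P * mxl k c z) := by
      intro c hc
      have e1 := uc hC hc hP0
      have e2 := uc2 hC hc hP0 hz0
      have e3 := mul_le_mul_of_nonneg_left e2 hinv
      have e4 : 0 ≤ wt k P * mxl k c z := mul_nonneg (wt_pos hk P).le (mxl_nonneg hc z)
      have e5 := ub_arith (m := M0) (T := (1 - wt g z)⁻¹) (lam := lam) (A := mxl k c P)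
        (B := wt k P * mxl k c z) (X := sml g c P) (Y := 1)
        (p := max (mxl k c P) (wt k P * mxl k c z)) hM0 hl hl1 hinv
        (by rw [le_div_iff₀ hl] at h7; linarith) zero_le_one e1 (le_max_left _ _)
        (by rw [one_mul]; exact le_max_right _ _) (e4.trans (le_max_right _ _)) e4
      refine le_trans ?_ e5
      linarith
    refine ⟨y, hy, hdd, ?_, ?_⟩
    · rw [hcost]; exact key a ha
    · rw [hcost]; exact key b hb
  · have hP0 := h2.trans hM
    obtain ⟨y, hy, hdd, hcost⟩ := flow2 hg h1 h3 h6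
    have hinv : 0 ≤ (1 - wt g z)⁻¹ := inv_nonneg.2 (by linarith)
    have key : ∀ c : E → ℝ, (∀ f, 0 ≤ c f) →
        sml g c P + wt g P * ((1 - wt g z)⁻¹ * sml g c z) ≤
          20 * (M0 + 1) / lam *
            max (mxl k c P) (wt k P * ((1 - wt g z)⁻¹ * mxl k c z)) := by
      intro c hc
      have e1 := uc hC hc hP0
      have e2 := uc2 hC hc hP0 h4
      have e3 := mul_le_mul_of_nonneg_left e2 hinv
      have e4 : 0 ≤ wt k P * mxl k c z := mul_nonneg (wt_pos hk P).le (mxl_nonneg hc z)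
      have e6 : (1 - wt g z)⁻¹ * (wt k P * mxl k c z) =
          wt k P * ((1 - wt g z)⁻¹ * mxl k c z) := by ring
      have e5 := ub_arith (m := M0) (T := (1 - wt g z)⁻¹) (lam := lam) (A := mxl k c P)
        (B := wt k P * mxl k c z) (X := sml g c P) (Y := (1 - wt g z)⁻¹)
        (p := max (mxl k c P) (wt k P * ((1 - wt g z)⁻¹ * mxl k c z))) hM0 hl hl1 hinv
        (by nlinarith) hinv e1 (le_max_left _ _)
        (by rw [e6]; exact le_max_right _ _)
        ((mxl_nonneg hc P).trans (le_max_left _ _)) e4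
      refine le_trans ?_ e5
      linarith
    refine ⟨y, hy, hdd, ?_, ?_⟩
    · rw [hcost]; exact key a ha
    · rw [hcost]; exact key b hb

end Pool.Agent.L7h32.TV.Tp

namespace Pool.Agent.L7h32.TV

open Pool.Agent.L7h39.TV

theorem tp (hP1 : S_P1) (hTRO : S_TRO) : S_TP := by
  intro E N _ _ _ tl hd g k a b lam M0 v hC hM ha hb
  obtain ⟨D, hD1, hD2, hD3⟩ := hTRO E N tl hd g k a b M0 v hC.1 hC.2.1 ha hb
  refine ⟨D, hD1, ?_, hD3, ?_, ?_⟩
  · intro p hp
    exact Tp.Fb.nonneg hC.2.1 ha hb (hD2 p hp)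
  · intro θ hθ y hy hd0 hv
    obtain ⟨p, hp, h1⟩ := Tp.lower hP1 hC hM ha hb hθ hy hd0 hv
    obtain ⟨p', hp', h2, h3⟩ := hD3 _ p hp
    refine ⟨p', hp', le_trans ?_ h1⟩
    exact mul_le_mul_of_nonneg_left
      (max_le_max h2 (mul_le_mul_of_nonneg_left h3 hθ.le)) hv.le
  · intro p hp
    exact Tp.upper hC hM ha hb (hD2 p hp)

end Pool.Agent.L7h32.TV
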